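import Mathlib
import Pool.Agent.KS6_25.CSR.AS

/-!
# Consecutive sums of a random subset of `[n]`: rate of convergence and almost sure version

Let `0 < p < 1` and `c = p ^ 4 / 83886080`.

* A `p`-random subset of `[n]` has at least `c n²` sums of consecutive elements with probability
  at least `1 - D n ^ (-δ)`, where `δ > 0` and `D` depend on `p` only.
* Almost surely a `p`-random set `A` of positive integers satisfies `|S(A ∩ [n])| ≥ c n²` for all
  sufficiently large `n` simultaneously.
-/

set_option autoImplicit false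

open Finset Filter Topology MeasureTheory ProbabilityTheory

namespace Pool.Agent.Results.MP_a40b8c_co.AlmostSure

/-- `S(a)` for a finite sequence `a_0, …, a_{k-1}`: the set of all sums
`a_i + a_{i+1} + ⋯ + a_j` with `i ≤ j`. -/
def consecutiveSums {k : ℕ} (a : Fin k → ℕ) : Finset ℕ :=
  ((univ : Finset (Fin k × Fin k)).filter (fun q => q.1 ≤ q.2)).image
    (fun q => ∑ u ∈ Finset.Icc q.1 q.2, a u)

/-- the increasing enumeration of a finite set of natural numbers -/
def enumeration (A : Finset ℕ) : Fin A.card → ℕ := fun i => A.orderEmbOfFin rfl i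

open Classical in
/-- probability that a `p`-random subset `A` of `[n] = {1, …, n}` has the property `E`:
a given subset `A` occurs with probability `p ^ |A| (1 - p) ^ (n - |A|)`. -/
noncomputable def prob (p : ℝ) (n : ℕ) (E : Finset ℕ → Prop) : ℝ :=
  ∑ A ∈ (Finset.Icc 1 n).powerset.filter E, p ^ A.card * (1 - p) ^ (n - A.card)

open Pool.Agent.H77CS in
theorem Sm_subset (A : Finset ℕ) : Sm A ⊆ consecutiveSums (enumeration A) := by
  intro s hs
  simp only [Sm, mem_image, mem_filter, mem_product] at hs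
  obtain ⟨q, ⟨⟨h1, h2⟩, h3⟩, h4⟩ := hs
  set e := A.orderEmbOfFin rfl with he
  have hr1 : q.1 ∈ Set.range e := by
    rw [he, Finset.range_orderEmbOfFin]; exact h1
  have hr2 : q.2 ∈ Set.range e := by
    rw [he, Finset.range_orderEmbOfFin]; exact h2
  obtain ⟨i, hi⟩ := hr1
  obtain ⟨j, hj⟩ := hr2
  have hij : i < j := by
    rw [← hi, ← hj] at h3
    exact e.lt_iff_lt.mp h3
  have hij' : i.1 < j.1 := hij
  have hi1 : i.1 + 1 < A.card := by have := j.2; omega
  set i' : Fin A.card := ⟨i.1 + 1, hi1⟩ with hi'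
  simp only [consecutiveSums, mem_image, mem_filter, mem_univ, true_and]
  refine ⟨(i', j), ?_, ?_⟩
  · show i'.1 ≤ j.1
    simp only [hi']; omega
  · rw [← h4]
    unfold S
    have hfil : A.filter (fun u => q.1 < u ∧ u ≤ q.2) = (Finset.Icc i' j).map e.toEmbedding := by
      ext u
      simp only [mem_filter, Finset.mem_map, mem_Icc]
      constructor
      · rintro ⟨hu, hu1, hu2⟩
        have hr : u ∈ Set.range e := by
          rw [he, Finset.range_orderEmbOfFin]; exact hu
        obtain ⟨v, hv⟩ := hr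
        refine ⟨v, ⟨?_, ?_⟩, hv⟩
        · rw [← hi, ← hv] at hu1
          have h5 : i < v := e.lt_iff_lt.mp hu1
          have h6 : i.1 < v.1 := h5
          show i'.1 ≤ v.1
          simp only [hi']; omega
        · rw [← hj, ← hv] at hu2
          exact e.le_iff_le.mp hu2
      · rintro ⟨v, ⟨hv1, hv2⟩, hv⟩
        have hv' : e v = u := hv
        refine ⟨?_, ?_, ?_⟩
        · rw [← hv']; exact Finset.orderEmbOfFin_mem A rfl v
        · rw [← hi, ← hv']
          apply e.lt_iff_lt.mpr
          have h6 : i'.1 ≤ v.1 := hv1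
          show i.1 < v.1
          simp only [hi'] at h6; omega
        · rw [← hj, ← hv']
          exact e.le_iff_le.mpr hv2
    rw [hfil, Finset.sum_map]
    rfl

open Pool.Agent.H77CS Pool.Agent.KS6_25.CSR in
/-- the complement of the good event is contained in the bad event of the helper files -/
theorem one_sub_le {p : ℝ} (hp0 : 0 < p) (hp1 : p < 1) (n : ℕ) :
    1 - Ex p (Ioc 0 n) (bad p n) ≤ prob p n (fun A =>
      p ^ 4 / 83886080 * (n : ℝ) ^ 2 ≤ ((consecutiveSums (enumeration A)).card : ℝ)) := by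
  classical
  have hI : Finset.Icc 1 n = Ioc 0 n := by
    ext u
    simp only [mem_Icc, mem_Ioc]
    omega
  have h1p : 0 ≤ 1 - p := by linarith
  have h1 : prob p n (fun A =>
      p ^ 4 / 83886080 * (n : ℝ) ^ 2 ≤ ((consecutiveSums (enumeration A)).card : ℝ)) =
      Ex p (Ioc 0 n) (fun A => if p ^ 4 / 83886080 * (n : ℝ) ^ 2 ≤
        ((consecutiveSums (enumeration A)).card : ℝ) then (1 : ℝ) else 0) := by
    unfold prob Ex
    rw [Finset.sum_filter, hI]
    apply Finset.sum_congr rfl
    intro A _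
    rw [Nat.card_Ioc, Nat.sub_zero]
    by_cases h : p ^ 4 / 83886080 * (n : ℝ) ^ 2 ≤ ((consecutiveSums (enumeration A)).card : ℝ) <;>
      simp [h]
  rw [h1]
  have h5 : (1 : ℝ) ≤ Ex p (Ioc 0 n) (fun A => (if p ^ 4 / 83886080 * (n : ℝ) ^ 2 ≤
        ((consecutiveSums (enumeration A)).card : ℝ) then (1 : ℝ) else 0) + bad p n A) := by
    have h8 := Ex_const p (Ioc 0 n) 1
    refine le_trans (le_of_eq h8.symm) ?_
    apply Ex_mono hp0.le hp1.le
    intro A _
    have h6 : ((Sm A).card : ℝ) ≤ ((consecutiveSums (enumeration A)).card : ℝ) := by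
      exact_mod_cast Finset.card_le_card (Sm_subset A)
    have hpos : 0 ≤ p ^ 4 / 83886080 * (n : ℝ) ^ 2 := by positivity
    have hle : p ^ 4 / 83886080 * (n : ℝ) ^ 2 ≤ p ^ 4 / 20971520 * (n : ℝ) ^ 2 := by
      have : p ^ 4 / 83886080 ≤ p ^ 4 / 20971520 := by
        apply div_le_div_of_nonneg_left (by positivity) (by norm_num) (by norm_num)
      gcongr
    unfold bad
    by_cases h7 : p ^ 4 / 83886080 * (n : ℝ) ^ 2 ≤ ((consecutiveSums (enumeration A)).card : ℝ)
    · rw [if_pos h7]
      split_ifs <;> norm_num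
    · rw [if_neg h7, if_pos (by push Not at h7; linarith)]
      norm_num
  rw [Ex_add] at h5
  linarith

/-- **Main theorem.** Let `0 < p < 1`.
1. There are `δ > 0` and `D` such that for every `n ≥ 1` a `p`-random subset of `[n]` has at least
   `p ^ 4 / 83886080 * n ^ 2` sums of consecutive elements with probability at least
   `1 - D n ^ (-δ)`.
2. In particular this probability tends to one.
3. Let `ξ 0, ξ 1, …` be independent random truth values with `P (ξ i = true) = p`. Almost surely,
   the set `{i ∈ [n] : ξ i = true}` has at least `p ^ 4 / 83886080 * n ^ 2` sums of consecutive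
   elements for all sufficiently large `n`. -/
theorem result : ∀ p : ℝ, 0 < p → p < 1 →
    (∃ δ D : ℝ, 0 < δ ∧ ∀ n : ℕ, 1 ≤ n → 1 - D * (n : ℝ) ^ (-δ) ≤
      prob p n (fun A => p ^ 4 / 83886080 * (n : ℝ) ^ 2 ≤
        ((consecutiveSums (enumeration A)).card : ℝ))) ∧
    Tendsto (fun n : ℕ => prob p n (fun A => p ^ 4 / 83886080 * (n : ℝ) ^ 2 ≤
      ((consecutiveSums (enumeration A)).card : ℝ))) atTop (𝓝 1) ∧
    ∀ (Ω : Type) (_ : MeasurableSpace Ω) (P : Measure Ω) (_ : IsProbabilityMeasure P)
      (ξ : ℕ → Ω → Bool), (∀ i, Measurable (ξ i)) → iIndepFun ξ P →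
      (∀ i, P {ω | ξ i ω = true} = ENNReal.ofReal p) →
      ∀ᵐ ω ∂P, ∀ᶠ n : ℕ in atTop, p ^ 4 / 83886080 * (n : ℝ) ^ 2 ≤
        ((consecutiveSums (enumeration
          ((Finset.Icc 1 n).filter (fun i => ξ i ω = true)))).card : ℝ) := by
  classical
  intro p hp0 hp1
  obtain ⟨δ, D, hδ, hD, hrate⟩ := Pool.Agent.KS6_25.CSR.rate hp0 hp1
  have hmain : ∀ n : ℕ, 1 ≤ n → 1 - D * (n : ℝ) ^ (-δ) ≤
      prob p n (fun A => p ^ 4 / 83886080 * (n : ℝ) ^ 2 ≤
        ((consecutiveSums (enumeration A)).card : ℝ)) := by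
    intro n hn
    have h1 := hrate n hn
    have h2 := one_sub_le hp0 hp1 n
    linarith
  refine ⟨⟨δ, D, hδ, hmain⟩, ?_, ?_⟩
  · have hlim : Tendsto (fun n : ℕ => 1 - D * (n : ℝ) ^ (-δ)) atTop (𝓝 1) := by
      have h1 : Tendsto (fun n : ℕ => (n : ℝ) ^ (-δ)) atTop (𝓝 0) :=
        (tendsto_rpow_neg_atTop hδ).comp tendsto_natCast_atTop_atTop
      have h2 := (h1.const_mul D).const_sub 1
      rwa [mul_zero, sub_zero] at h2
    refine tendsto_of_tendsto_of_tendsto_of_le_of_le' hlim tendsto_const_nhds ?_ ?_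
    · filter_upwards [eventually_ge_atTop 1] with n hn
      exact hmain n hn
    · filter_upwards with n
      have h1p : 0 ≤ 1 - p := by linarith
      have h1 : prob p n (fun A => p ^ 4 / 83886080 * (n : ℝ) ^ 2 ≤
          ((consecutiveSums (enumeration A)).card : ℝ)) ≤
          ∑ A ∈ (Finset.Icc 1 n).powerset, p ^ A.card * (1 - p) ^ (n - A.card) := by
        unfold prob
        apply Finset.sum_le_sum_of_subset_of_nonneg (Finset.filter_subset _ _)
        intro A _ _
        positivity
      refine h1.trans (le_of_eq ?_)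
      have h2 := Pool.Agent.H77CS.Ex_const p (Ioc 0 n) 1
      unfold Pool.Agent.H77CS.Ex at h2
      have hI : Finset.Icc 1 n = Ioc 0 n := by
        ext u
        simp only [mem_Icc, mem_Ioc]
        omega
      rw [Nat.card_Ioc, Nat.sub_zero] at h2
      simp only [mul_one] at h2
      rw [hI]
      exact h2
  · intro Ω _ P _ ξ hm hi hP
    filter_upwards [Pool.Agent.KS6_25.CSR.almost_sure hp0 hp1 hm hi hP] with ω hω
    filter_upwards [hω] with n hn
    refine hn.trans ?_
    exact_mod_cast Finset.card_le_card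
      (Sm_subset ((Finset.Icc 1 n).filter (fun i => ξ i ω = true)))

end Pool.Agent.Results.MP_a40b8c_co.AlmostSure
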